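import Mathlib

set_option autoImplicit false
open Set Filter Topology Cardinal

namespace Pool.Agent.H.MP_ef1120_an

universe u

variable {X : Type u} [NormedAddCommGroup X] [NormedSpace ℝ X]

lemma recur {κ : Cardinal} {D : Set X} (hD : #D ≤ κ) {G R : X → X → Prop}
    (h : ∀ F : Set X, #F < κ → F.Pairwise G → ∀ x, ∃ p, R x p ∧ (insert p F).Pairwise G) :
    ∃ P : Set X, P.Pairwise G ∧ ∀ x ∈ D, ∃ p ∈ P, R x p := by
  classical
  rcases D.eq_empty_or_nonempty with rfl | hne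
  · exact ⟨∅, by simp, by simp⟩
  have := hne.to_subtype
  obtain ⟨f⟩ : Nonempty (D ↪ κ.ord.ToType) := by rwa [← Cardinal.le_def, mk_ord_toType]
  let x : κ.ord.ToType → X := fun i => (Function.invFun f i).1
  let p : κ.ord.ToType → X := wellFounded_lt.fix fun j q =>
    if h : ∃ y, R (x j) y ∧ (insert y (range fun i : Iio j => q i i.2)).Pairwise G then h.choose else 0
  have k : ∀ j, R (x j) (p j) ∧ (insert (p j) (range fun i : Iio j => p i)).Pairwise G := fun j => by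
    induction j using WellFoundedLT.induction with
    | ind j ih =>
      have := h (range fun i : Iio j => p i) (mk_range_le.trans_lt (mk_Iio_toType_ord_lt j)) (by
        rintro _ ⟨a, rfl⟩ _ ⟨b, rfl⟩ e
        rcases lt_trichotomy a.1 b.1 with l | l | l
        · exact (ih b b.2).2 (.inr ⟨⟨a, l⟩, rfl⟩) (.inl rfl) e
        · exact (e (congrArg p l)).elim
        · exact (ih a a.2).2 (.inl rfl) (.inr ⟨⟨b, l⟩, rfl⟩) e) (x j)
      have e : p j = this.choose := (WellFounded.fix_eq _ _ _).trans (dif_pos this)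
      exact e ▸ this.choose_spec
  refine ⟨range p, ?_, fun y hy => ⟨_, ⟨f ⟨y, hy⟩, rfl⟩, ?_⟩⟩
  · rintro _ ⟨a, rfl⟩ _ ⟨b, rfl⟩ e
    rcases lt_trichotomy a b with l | l | l
    · exact (k b).2 (.inr ⟨⟨a, l⟩, rfl⟩) (.inl rfl) e
    · exact (e (congrArg p l)).elim
    · exact (k a).2 (.inl rfl) (.inr ⟨⟨b, l⟩, rfl⟩) e
  · simpa [x, Function.leftInverse_invFun f.injective _] using (k (f ⟨y, hy⟩)).1

lemma greedy {κ : Cardinal} (hκ : ℵ₀ ≤ κ) {D : Set X} (hD : #D ≤ κ) (dD : Dense D) {l : Filter X}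
    (hl : ∀ (ι : Type u) (S : ι → Set X), #ι < κ → (∀ i, S i ∈ l) → ∃ e, ∀ i, e ∈ S i) {α β : ℝ}
    (a0 : 0 < α) (ab : α < β) (ha : ∀ᶠ e in l, ‖e‖ ≤ α)
    (hb : ∀ v, ∀ σ : ℝ, σ = 1 ∨ σ = -1 → ∀ᶠ a in l, ∀ᶠ b in l, β ≤ ‖v + (σ / 2) • a + b‖) :
    ∃ r < 2, 0 < r ∧ ∃ P : Set X, (∀ x ∈ P, ∀ y ∈ P, x ≠ y → 2 ≤ ‖x - y‖) ∧
      ∀ x, ∃ p ∈ P, ‖x - p‖ ≤ r := by
  obtain ⟨δ, hδ⟩ : ∃ δ, δ = (β - α) / (2 * β) := ⟨_, rfl⟩
  have d0 : 0 < δ := by rw [hδ]; exact div_pos (by linarith) (by linarith)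
  have d1 : δ < 1 / 2 := by rw [hδ, div_lt_iff₀ (by linarith)]; linarith
  obtain ⟨ρ, hρ⟩ : ∃ ρ, ρ = (2 - 2 * δ) / α := ⟨_, rfl⟩
  have r0 : 0 < ρ := by rw [hρ]; exact div_pos (by linarith) a0
  have r1 : ρ * α = 2 - 2 * δ := by rw [hρ]; field_simp
  have r2 : 2 + δ ≤ ρ * β := by
    have : δ * (2 * β) = β - α := by rw [hδ, div_mul_cancel₀ _ (by linarith)]
    rw [hρ, div_mul_eq_mul_div, le_div_iff₀ a0]
    nlinarith
  let Gd := fun d : X => ∀ᶠ b in l, 2 * (2 + δ) ≤ ‖d + (2 * ρ) • b‖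
  have g : ∀ v, ∀ σ : ℝ, σ = 1 ∨ σ = -1 → ∀ᶠ a in l, Gd (v + (σ * ρ) • a) := fun v σ h =>
    (hb ((2 * ρ)⁻¹ • v) σ h).mono fun a h => h.mono fun b hb => by
      rw [show v + (σ * ρ) • a + (2 * ρ) • b = (2 * ρ) • ((2 * ρ)⁻¹ • v + (σ / 2) • a + b) by
        rw [smul_add, smul_add, smul_inv_smul₀ (by positivity), smul_smul]; congr 3; ring,
        norm_smul, Real.norm_of_nonneg (by positivity)]
      nlinarith
  obtain ⟨P, h1, h2⟩ := recur hD (G := fun p q => 2 ≤ ‖p - q‖ ∧ Gd (p - q))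
    (R := fun x p => ‖x - p‖ ≤ 2 - δ) fun F hF hG x => by
      by_cases c : ∃ q ∈ F, ‖x - q‖ ≤ 2 - δ
      · obtain ⟨q, hq, c⟩ := c
        exact ⟨q, c, by rwa [insert_eq_of_mem hq]⟩
      push Not at c
      let u : Option F → X := fun o => o.elim 0 fun q => (δ / ‖x - q‖) • (x - q)
      obtain ⟨e, he⟩ := hl (Option (F × Option F)) (fun o => {e | ‖e‖ ≤ α ∧ ∀ q o', o = some (q, o') →
          (∀ q' : F, o' = some q' → q ≠ q' → 2 * (2 + δ) ≤ ‖q.1 - q'.1 + (2 * ρ) • e‖) ∧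
          ∀ σ : ℝ, σ = 1 ∨ σ = -1 → Gd (x + u o' - q + (σ * ρ) • e) ∧ Gd (q - (x + u o') + (σ * ρ) • e)})
        (by simp only [mk_option, mk_prod, lift_id]
            exact add_lt_of_lt hκ (mul_lt_of_lt hκ hF (add_lt_of_lt hκ hF (one_lt_aleph0.trans_le hκ)))
              (one_lt_aleph0.trans_le hκ))
        (by rintro (_ | ⟨q, o⟩)
            · exact ha.mono fun e h => ⟨h, by simp⟩
            · have A : ∀ᶠ e in l, ∀ q' : F, o = some q' → q ≠ q' →
                  2 * (2 + δ) ≤ ‖q.1 - q'.1 + (2 * ρ) • e‖ := by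
                rcases o with _ | q'
                · simp
                · by_cases e : q = q'
                  · simp [e]
                  · simpa [e] using (hG q.2 q'.2 (Subtype.coe_ne_coe.2 e)).2
              filter_upwards [ha, A, g (x + u o - q) 1 (.inl rfl), g (q - (x + u o)) 1 (.inl rfl),
                g (x + u o - q) (-1) (.inr rfl), g (q - (x + u o)) (-1) (.inr rfl)] with e h1 h2 h3 h4 h5 h6
              refine ⟨h1, ?_⟩
              rintro _ _ ⟨⟩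
              exact ⟨h2, by rintro _ (rfl | rfl); exacts [⟨h3, h4⟩, ⟨h5, h6⟩]⟩)
      have k : ∃ o, ∃ σ : ℝ, (σ = 1 ∨ σ = -1) ∧ ∀ q ∈ F, 2 ≤ ‖x + u o - q + (σ * ρ) • e‖ := by
        by_cases c1 : ∀ q ∈ F, 2 + δ ≤ ‖x - q + (1 * ρ) • e‖
        · exact ⟨none, 1, by simp, fun q hq => by simp only [u, Option.elim, add_zero]; linarith [c1 q hq]⟩
        by_cases c2 : ∀ q ∈ F, 2 + δ ≤ ‖x - q + (-1 * ρ) • e‖
        · exact ⟨none, -1, by simp, fun q hq => by simp only [u, Option.elim, add_zero]; linarith [c2 q hq]⟩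
        push Not at c1 c2
        obtain ⟨a, ha, c1⟩ := c1
        obtain ⟨b, hb, c2⟩ := c2
        have o : ∀ a ∈ F, ∀ b ∈ F, ‖x - a + (1 * ρ) • e‖ < 2 + δ → ‖x - b + (-1 * ρ) • e‖ < 2 + δ →
            b = a := fun a ha b hb c1 c2 => by
          by_contra hh
          have := ((he (some (⟨b, hb⟩, some ⟨a, ha⟩))).2 _ _ rfl).1 _ rfl (Subtype.coe_ne_coe.1 hh)
          have t := norm_sub_le (x - a + (1 * ρ) • e) (x - b + (-1 * ρ) • e)
          rw [show x - a + (1 * ρ) • e - (x - b + (-1 * ρ) • e) = b - a + (2 * ρ) • e by module] at t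
          linarith
        obtain rfl := o a ha b hb c1 c2
        have w0 : 0 < ‖x - b‖ := by linarith [c b hb]
        have un : ‖u (some ⟨b, hb⟩)‖ = δ := by
          simp only [u, Option.elim, norm_smul, Real.norm_of_nonneg (div_pos d0 w0).le]; field_simp
        have w : 2 ≤ ‖x + u (some ⟨b, hb⟩) - b‖ := by
          rw [show x + u (some ⟨b, hb⟩) - b = (1 + δ / ‖x - b‖) • (x - b) by simp only [u, Option.elim]; module,
            norm_smul, Real.norm_of_nonneg (by positivity), add_mul, div_mul_cancel₀ _ w0.ne']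
          linarith [c b hb]
        have f : ∀ (σ : ℝ) q, 2 + δ ≤ ‖x - q + (σ * ρ) • e‖ →
            2 ≤ ‖x + u (some ⟨b, hb⟩) - q + (σ * ρ) • e‖ := fun σ q h => by
          have t := norm_sub_le (x + u (some ⟨b, hb⟩) - q + (σ * ρ) • e) (u (some ⟨b, hb⟩))
          rw [show x + u (some ⟨b, hb⟩) - q + (σ * ρ) • e - u (some ⟨b, hb⟩) = x - q + (σ * ρ) • e by
            abel] at t
          linarith
        by_cases s : 2 ≤ ‖x + u (some ⟨b, hb⟩) - b + (1 * ρ) • e‖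
        · refine ⟨some ⟨b, hb⟩, 1, by simp, fun q hq => ?_⟩
          by_cases h : ‖x - q + (1 * ρ) • e‖ < 2 + δ
          · rwa [← o q hq b hb h c2]
          · exact f _ _ (not_lt.1 h)
        · refine ⟨some ⟨b, hb⟩, -1, by simp, fun q hq => ?_⟩
          by_cases h : ‖x - q + (-1 * ρ) • e‖ < 2 + δ
          · rw [o b hb q hq c1 h]
            have t := norm_add_le (x + u (some ⟨b, hb⟩) - b + (1 * ρ) • e)
              (x + u (some ⟨b, hb⟩) - b + (-1 * ρ) • e)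
            rw [show x + u (some ⟨b, hb⟩) - b + (1 * ρ) • e + (x + u (some ⟨b, hb⟩) - b + (-1 * ρ) • e) =
              (2 : ℝ) • (x + u (some ⟨b, hb⟩) - b) by module, norm_smul, Real.norm_two] at t
            linarith
          · exact f _ _ (not_lt.1 h)
      obtain ⟨o, σ, hσ, k⟩ := k
      refine ⟨x + u o + (σ * ρ) • e, ?_, pairwise_insert.2 ⟨hG, fun q hq _ => ?_⟩⟩
      · rw [add_assoc, sub_add_cancel_left, norm_neg]
        refine (norm_add_le _ _).trans ?_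
        have : ‖u o‖ ≤ δ := by
          rcases o with _ | q
          · simp [u, d0.le]
          · simp only [u, Option.elim, norm_smul, Real.norm_of_nonneg (div_nonneg d0.le (norm_nonneg _))]
            rw [div_mul_cancel₀ _ (by linarith [c q q.2])]
        have : ‖(σ * ρ) • e‖ ≤ ρ * α := by
          rw [norm_smul, show ‖σ * ρ‖ = ρ by rcases hσ with rfl | rfl <;> simp [r0.le]]
          exact mul_le_mul_of_nonneg_left (he none).1 r0.le
        linarith
      · have t := ((he (some (⟨q, hq⟩, o))).2 _ _ rfl).2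
        rw [norm_sub_rev q, add_sub_right_comm]
        refine ⟨⟨k q hq, (t σ hσ).1⟩, k q hq, ?_⟩
        convert (t (-σ) (by rcases hσ with rfl | rfl <;> simp)).2 using 1
        module
  refine ⟨2 - δ / 2, by linarith, by linarith, P, fun x hx y hy e => (h1 hx hy e).1, fun x => ?_⟩
  obtain ⟨y, hy, e⟩ := dD.exists_dist_lt x (half_pos d0)
  obtain ⟨p, hp, f⟩ := h2 y hy
  refine ⟨p, hp, ?_⟩
  rw [dist_eq_norm] at e
  linarith [norm_sub_le_norm_sub_add_norm_sub x y p]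

end Pool.Agent.H.MP_ef1120_an
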