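import Pool.Agent.H.MP_ef1120_an.A

set_option autoImplicit false
open Set Filter Topology

namespace Pool.Agent.H.MP_ef1120_an

universe u

variable {X : Type u} [NormedAddCommGroup X] [NormedSpace ℝ X]

def Gain (l : Filter X) (α β : ℝ) : Prop := (∀ᶠ e in l, ‖e‖ ≤ α) ∧
  ∀ v, ∀ σ : ℝ, σ = 1 ∨ σ = -1 → ∀ᶠ a in l, ∀ᶠ b in l, β ≤ ‖v + (σ / 2) • a + b‖

attribute [local instance] Ultrafilter.add Ultrafilter.addSemigroup

def Nm (t : ℝ) : Set (Ultrafilter X) := {y | ∀ s, t < s → {a | ‖a‖ < s} ∈ y}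

def Far (t : ℝ) : Set (Ultrafilter X) := {y | ∀ v s, s < t → {a | s < ‖v + a‖} ∈ y}

omit [NormedSpace ℝ X] in
lemma Nm_cl (t : ℝ) : IsClosed (Nm (X := X) t) := by
  simp only [Nm, ofPred_forall]
  exact isClosed_iInter fun _ => isClosed_iInter fun _ => ultrafilter_isClosed_basic _

omit [NormedSpace ℝ X] in
lemma Far_cl (t : ℝ) : IsClosed (Far (X := X) t) := by
  simp only [Far, ofPred_forall]
  exact isClosed_iInter fun _ => isClosed_iInter fun _ => isClosed_iInter fun _ =>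
    ultrafilter_isClosed_basic _

omit [NormedSpace ℝ X] in
lemma Far_add {t : ℝ} (a : Ultrafilter X) {y : Ultrafilter X} (h : y ∈ Far t) : a + y ∈ Far t :=
  fun v s hs => (Ultrafilter.eventually_add a y fun x => s < ‖v + x‖).2 (.of_forall fun m => by
    simp only [← add_assoc]; exact h (v + m) s hs)

lemma T_ne (h : ¬FiniteDimensional ℝ X) : (Nm 1 ∩ Far 1 : Set (Ultrafilter X)).Nonempty := by
  classical
  have k : ∀ (n : ℕ) (s : Finset X), ∃ x : X, ‖x‖ ≤ 1 + 2 / (n + 1) ∧ ∀ y ∈ s, 1 ≤ ‖y - x‖ := fun n s =>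
    exists_norm_le_le_norm_sub_of_finset (c := (1 + 1 / (n + 1) : ℝ))
      (by rw [Real.norm_of_nonneg (by positivity)]; simp; positivity)
      (by rw [Real.norm_of_nonneg (by positivity)]; gcongr; norm_num) h s
  choose x h1 h2 using k
  let l : Filter X := map (fun p : ℕ × Finset X => x p.1 p.2) atTop
  refine ⟨Ultrafilter.of l, fun s hs => Ultrafilter.of_le l ?_, fun v s hs => Ultrafilter.of_le l ?_⟩
  · obtain ⟨n, hn⟩ := exists_nat_gt (2 / (s - 1))
    refine mem_map.2 ?_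
    filter_upwards [eventually_ge_atTop (n, (∅ : Finset X))] with p hp
    refine (h1 _ _).trans_lt ?_
    have : (n : ℝ) ≤ p.1 := by exact_mod_cast hp.1
    rw [← lt_sub_iff_add_lt', div_lt_comm₀ (by positivity) (by linarith)]
    linarith
  · refine mem_map.2 ?_
    filter_upwards [eventually_ge_atTop (0, ({-v} : Finset X))] with p hp
    have := h2 p.1 p.2 (-v) (hp.2 (by simp))
    rw [← neg_add', norm_neg] at this
    exact hs.trans_le this

lemma succ (H : ∀ (y : Ultrafilter X) α β, 0 < α → α < β → ¬Gain (y : Filter X) α β) {y : Ultrafilter X}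
    (hy : y ∈ Nm 1 ∩ Far 1) : ∃ a ∈ Far (1 / 2), a + y ∈ Nm 1 := by
  have := IsCompact.nonempty_iInter_of_sequence_nonempty_isCompact_isClosed
    (fun n : ℕ => Far (1 / 2) ∩ (· + y) ⁻¹' Nm (1 + 1 / (n + 1)))
    (fun n a ha => ⟨ha.1, fun s hs => ha.2 s (lt_of_le_of_lt (by gcongr; simp) hs)⟩) (fun n => ?_)
    (((Far_cl _).inter ((Nm_cl _).preimage (Ultrafilter.continuous_add_left y))).isCompact)
    fun n => (Far_cl _).inter ((Nm_cl _).preimage (Ultrafilter.continuous_add_left y))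
  · obtain ⟨a, ha⟩ := this
    rw [mem_iInter] at ha
    refine ⟨a, (ha 0).1, fun s hs => ?_⟩
    obtain ⟨n, hn⟩ := exists_nat_one_div_lt (sub_pos.2 hs)
    exact (ha n).2 s (by linarith)
  have c : (0 : ℝ) < 1 / (n + 1) := by positivity
  have := H y (1 + 1 / (n + 1) / 2) (1 + 1 / (n + 1)) (by positivity) (by linarith)
  rw [Gain, not_and] at this
  have := this (mem_of_superset (hy.1 (1 + 1 / (n + 1) / 2) (by linarith))
    fun a (ha : ‖a‖ < _) => ha.le)
  push Not at this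
  obtain ⟨v, σ, hσ, h⟩ := this
  refine ⟨y.map fun a => v + (σ / 2) • a, fun w s hs => ?_, fun s hs => ?_⟩
  · refine Ultrafilter.mem_map.2 ?_
    filter_upwards [hy.2 ((2 * σ) • (w + v)) (2 * s) (by linarith)] with a ha
    have : (2 * σ) • (w + v) + a = (2 * σ) • (w + (v + (σ / 2) • a)) := by
      rcases hσ with rfl | rfl <;> module
    rw [this, norm_smul, show ‖2 * σ‖ = 2 by rcases hσ with rfl | rfl <;> simp] at ha
    change s < _
    linarith
  · refine (Ultrafilter.eventually_add _ y fun x => ‖x‖ < s).2 ?_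
    refine Ultrafilter.mem_map.2 ?_
    filter_upwards [h] with a ha
    exact ha.mono fun b hb => lt_trans hb hs

lemma semi (h : ¬FiniteDimensional ℝ X)
    (H : ∀ (y : Ultrafilter X) α β, 0 < α → α < β → ¬Gain (y : Filter X) α β) :
    ∃ a : ℕ → X, (∀ n, 1 / 4 < ‖a n‖) ∧ ∀ s : Finset ℕ, ‖∑ i ∈ s, a i‖ ≤ 4 := by
  let M := fun y : Ultrafilter X => ((· + y) '' Far (1 / 2)) ∩ (Nm 1 ∩ Far 1)
  have Mc : ∀ y, IsClosed (M y) := fun y => ((Ultrafilter.continuous_add_left y).isClosedMap _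
    (Far_cl _)).inter ((Nm_cl _).inter (Far_cl _))
  obtain ⟨C, hC⟩ : ∃ C, Minimal (· ∈ {C | IsClosed C ∧ C.Nonempty ∧ C ⊆ Nm 1 ∩ Far 1 ∧
      ∀ z ∈ C, M z ⊆ C}) C := by
    refine (zorn_superset_nonempty {C | IsClosed C ∧ C.Nonempty ∧ C ⊆ Nm 1 ∩ Far 1 ∧
      ∀ z ∈ C, M z ⊆ C} (fun c hc ch ne => ⟨⋂₀ c, ⟨isClosed_sInter fun t ht => (hc ht).1,
      ?_, (sInter_subset_of_mem ne.some_mem).trans (hc ne.some_mem).2.2.1,
      fun z hz => subset_sInter fun t ht => (hc ht).2.2.2 z (hz t ht)⟩,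
      fun _ => sInter_subset_of_mem⟩) (Nm 1 ∩ Far 1) ⟨(Nm_cl _).inter (Far_cl _), T_ne h, le_rfl,
        fun _ _ => inter_subset_right⟩).imp fun _ h => h.2
    have := ne.to_subtype
    exact IsCompact.nonempty_sInter_of_directed_nonempty_isCompact_isClosed (fun x hx y hy =>
      (ch.total hx hy).elim (fun h => ⟨x, hx, le_rfl, h⟩) fun h => ⟨y, hy, h, le_rfl⟩)
      (fun t ht => (hc ht).2.1) (fun t ht => (hc ht).1.isCompact) fun t ht => (hc ht).1
  obtain ⟨-, ⟨y, hy⟩, c1, c2⟩ := hC.prop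
  obtain ⟨a, a1, a2⟩ := succ H (c1 hy)
  have e : M y = C := hC.eq_of_subset ⟨Mc y, ⟨_, ⟨a, a1, rfl⟩, a2, Far_add a (c1 hy).2⟩,
    inter_subset_right, by
      rintro _ ⟨⟨b, hb, rfl⟩, -⟩ _ ⟨⟨d, -, rfl⟩, hd⟩
      exact ⟨⟨d + b, Far_add d hb, add_assoc _ _ _⟩, hd⟩⟩ (c2 y hy)
  obtain ⟨⟨b, b1, b2⟩, -⟩ := e ▸ hy
  obtain ⟨u, ⟨u1, u2⟩, u3⟩ := exists_idempotent_in_compact_add_subsemigroup
    Ultrafilter.continuous_add_left (Far (1 / 2) ∩ {a | a + y = y}) ⟨b, b1, b2⟩
    ((Far_cl _).inter (isClosed_eq (Ultrafilter.continuous_add_left y) continuous_const)).isCompact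
    fun p hp q hq => ⟨Far_add p hq.1, by rw [mem_ofPred_eq, add_assoc, hq.2, hp.2]⟩
  obtain ⟨a, ha⟩ := Hindman.exists_FS_of_large u u3 {v | 1 / 4 < ‖v‖ ∧ ‖v‖ ≤ 4} (by
    have k := (c1 hy).1 2 one_lt_two
    have k2 := (Ultrafilter.eventually_add u y fun x => ‖x‖ < 2).1 (u2.symm ▸ k)
    filter_upwards [u1 0 (1 / 4) (by norm_num), k2] with v h1 h2
    obtain ⟨w, w1, w2⟩ := (h2.and k).exists
    refine ⟨by simpa using h1, ?_⟩
    linarith [norm_le_add_norm_add v w])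
  refine ⟨a.get, fun n => (ha (Hindman.FS.singleton a n)).1, fun s => ?_⟩
  rcases s.eq_empty_or_nonempty with rfl | hs
  · simp
  · exact (ha (Hindman.FS.finsetSum a s hs)).2

open Finset in
lemma c0 [TopologicalSpace.SeparableSpace X] {a : ℕ → X} (h1 : ∀ n, 1 / 4 < ‖a n‖)
    (h2 : ∀ s : Finset ℕ, ‖∑ i ∈ s, a i‖ ≤ 4) :
    ∃ l : Filter X, l.NeBot ∧ ∃ α β, 0 < α ∧ α < β ∧ Gain l α β := by
  classical
  have fl : ∀ f : StrongDual ℝ X, ‖f‖ ≤ 1 → ∀ x, |f x| ≤ ‖x‖ := fun f hf x =>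
    (f.le_opNorm x).trans (mul_le_of_le_one_left (norm_nonneg _) hf)
  let B := {t : ℝ | ∃ n, ∀ f : StrongDual ℝ X, ‖f‖ ≤ 1 → ∀ m, ∑ i ∈ Ico n m, |f (a i)| ≤ t}
  have B8 : 8 ∈ B := ⟨0, fun f hf m => by
    rw [← sum_filter_add_sum_filter_not _ fun i => 0 ≤ f (a i),
      sum_congr rfl fun i hi => abs_of_nonneg (mem_filter.1 hi).2,
      sum_congr rfl fun i hi => abs_of_neg (not_le.1 (mem_filter.1 hi).2), sum_neg_distrib,
      ← map_sum, ← map_sum]
    linarith [(abs_le.1 ((fl f hf _).trans (h2 {i ∈ Ico 0 m | 0 ≤ f (a i)}))).2,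
      (abs_le.1 ((fl f hf _).trans (h2 {i ∈ Ico 0 m | ¬0 ≤ f (a i)}))).1]⟩
  have B4 : ∀ t ∈ B, 1 / 4 ≤ t := fun t ⟨n, hn⟩ => by
    obtain ⟨f, f1, f2⟩ := exists_dual_vector'' ℝ (a n)
    have := hn f f1 (n + 1)
    simp [f2] at this
    linarith [h1 n]
  obtain ⟨K, K0, ⟨n0, hn0⟩, hK⟩ : ∃ K : ℝ, 0 < K ∧ 101 * K ∈ B ∧ 99 * K ∉ B := by
    have p : 1 / 4 ≤ sInf B := le_csInf ⟨8, B8⟩ B4
    obtain ⟨t, ⟨n, hn⟩, ht⟩ := exists_lt_of_csInf_lt ⟨8, B8⟩ (by linarith : sInf B < 101 * (sInf B / 100))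
    exact ⟨sInf B / 100, by linarith, ⟨n, fun f hf m => (hn f hf m).trans ht.le⟩,
      fun h => by linarith [csInf_le ⟨_, B4⟩ h]⟩
  simp only [B, mem_ofPred_eq, not_exists, not_forall, not_le] at hK
  choose f0 f1 m hm using hK
  let N : ℕ → ℕ := fun j => m^[j] n0
  have Ns : ∀ j, N (j + 1) = m (N j) := fun j => Function.iterate_succ_apply' _ _ _
  have Nm : Monotone N := monotone_nat_of_le_succ fun j => by
    rw [Ns]; by_contra! hh
    have := hm (N j)
    rw [Finset.Ico_eq_empty_of_le hh.le, sum_empty] at this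
    linarith
  let y := fun j => ∑ i ∈ Ico (N j) (N (j + 1)), (SignType.sign (f0 (N j) (a i)) : ℝ) • a i
  have y1 : ∀ j, 99 * K ≤ f0 (N j) (y j) := fun j => by
    simpa [y, Ns, sign_mul_self] using (hm (N j)).le
  have y2 : ∀ g : StrongDual ℝ X, ‖g‖ ≤ 1 → ∀ s : Finset ℕ, ∑ j ∈ s, |g (y j)| ≤ 101 * K := fun g hg s => by
    have : ∀ k, ∑ j ∈ range k, |g (y j)| ≤ ∑ i ∈ Ico n0 (N k), |g (a i)| := fun k => by
      induction k with
      | zero => simp [N]
      | succ k ih =>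
        rw [sum_range_succ, ← sum_Ico_consecutive _ (show n0 ≤ N k from Nm k.zero_le) (Nm k.le_succ)]
        refine add_le_add ih ?_
        rw [map_sum]
        refine (abs_sum_le_sum_abs _ _).trans (sum_le_sum fun i _ => ?_)
        rw [map_smul, smul_eq_mul, abs_mul]
        refine mul_le_of_le_one_left (abs_nonneg _) ?_
        generalize SignType.sign (f0 (N k) (a i)) = t
        cases t <;> simp
    obtain ⟨k, hk⟩ := s.exists_nat_subset_range
    exact (sum_le_sum_of_subset_of_nonneg hk fun _ _ _ => abs_nonneg _).trans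
      ((this k).trans (hn0 g hg _))
  obtain ⟨F, -, φ, hφ, hF⟩ := WeakDual.isSeqCompact_closedBall ℝ X 0 1
    (x := fun j => StrongDual.toWeakDual (f0 (N j))) fun j => by simpa using f1 (N j)
  have hF' : ∀ v, Tendsto (fun j => f0 (N (φ j)) v) atTop (𝓝 (F v)) := fun v =>
    ((WeakDual.eval_continuous v).tendsto F).comp hF
  let z := fun k => y (φ (2 * k)) - y (φ (2 * k + 1))
  let g := fun k => (1 / 2 : ℝ) • (f0 (N (φ (2 * k))) - f0 (N (φ (2 * k + 1))))
  have g1 : ∀ k, ‖g k‖ ≤ 1 := fun k => by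
    rw [norm_smul, Real.norm_of_nonneg (by norm_num)]
    linarith [norm_sub_le (f0 (N (φ (2 * k)))) (f0 (N (φ (2 * k + 1)))), f1 (N (φ (2 * k))),
      f1 (N (φ (2 * k + 1)))]
  have g2 : ∀ v, ∀ᶠ k in atTop, -K ≤ g k v := fun v => by
    have := ((hF' v).comp (tendsto_atTop_mono (g := fun k : ℕ => 2 * k)
      (fun k => by simp only [id]; omega) tendsto_id)).sub ((hF' v).comp (tendsto_atTop_mono
        (g := fun k : ℕ => 2 * k + 1) (fun k => by simp only [id]; omega) tendsto_id))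
    filter_upwards [this.eventually_const_lt (by linarith : -K < F v - F v)] with k hk
    simp only [Function.comp] at hk
    simp only [g, smul_apply, sub_apply, smul_eq_mul]
    linarith
  have g3 : ∀ k, 97 * K ≤ g k (z k) := fun k => by
    have ne : φ (2 * k) ≠ φ (2 * k + 1) := hφ.injective.ne (by omega)
    have a1 := y2 _ (f1 (N (φ (2 * k)))) {φ (2 * k), φ (2 * k + 1)}
    have a2 := y2 _ (f1 (N (φ (2 * k + 1)))) {φ (2 * k), φ (2 * k + 1)}
    rw [sum_pair ne] at a1 a2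
    simp only [g, z, smul_apply, sub_apply, smul_eq_mul, map_sub]
    linarith [y1 (φ (2 * k)), y1 (φ (2 * k + 1)), le_abs_self (f0 (N (φ (2 * k))) (y (φ (2 * k)))),
      le_abs_self (f0 (N (φ (2 * k))) (y (φ (2 * k + 1)))),
      le_abs_self (f0 (N (φ (2 * k + 1))) (y (φ (2 * k)))),
      le_abs_self (f0 (N (φ (2 * k + 1))) (y (φ (2 * k + 1))))]
  have z1 : ∀ h : StrongDual ℝ X, ‖h‖ ≤ 1 → ∀ n, ∑ k ∈ range n, |h (z k)| ≤ 101 * K := fun h hh n => by
    refine le_trans ?_ (y2 h hh ((range (2 * n)).image φ))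
    rw [sum_image fun _ _ _ _ e => hφ.injective e]
    induction n with
    | zero => simp
    | succ n ih =>
      rw [sum_range_succ, mul_add, mul_one, sum_range_succ, sum_range_succ, add_assoc, map_sub]
      exact add_le_add ih (abs_sub _ _)
  let e := fun n => ∑ k ∈ range n, z k - z n
  have e1 : ∀ k n, k < n → 93 * K ≤ g k (e n) := fun k n h => by
    have := z1 _ (g1 k) (n + 1)
    rw [sum_range_succ, ← add_sum_erase _ _ (mem_range.2 h)] at this
    rw [map_sub, map_sum, ← add_sum_erase _ _ (mem_range.2 h)]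
    linarith [g3 k, le_abs_self (g k (z k)), le_abs_self (g k (z n)), neg_abs_le (∑ i ∈ (range n).erase k,
      g k (z i)), abs_sum_le_sum_abs (fun i => g k (z i)) ((range n).erase k)]
  have e2 : ∀ n, g n (e n) ≤ -(93 * K) := fun n => by
    have := z1 _ (g1 n) (n + 1)
    rw [sum_range_succ] at this
    rw [map_sub, map_sum]
    linarith [g3 n, le_abs_self (g n (z n)), le_abs_self (∑ i ∈ range n, g n (z i)),
      abs_sum_le_sum_abs (fun i => g n (z i)) (range n)]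
  refine ⟨map e atTop, inferInstance, 101 * K, 130 * K, by linarith, by linarith,
    eventually_map.2 (.of_forall fun n => ?_), ?_⟩
  · obtain ⟨h, hh, e3⟩ := exists_dual_vector'' ℝ (e n)
    have := z1 h hh (n + 1)
    rw [sum_range_succ] at this
    rw [map_sub, map_sum] at e3
    simp only [RCLike.ofReal_real_eq_id, id] at e3
    linarith [neg_abs_le (h (z n)), le_abs_self (∑ i ∈ range n, h (z i)),
      abs_sum_le_sum_abs (fun i => h (z i)) (range n)]
  simp only [eventually_map]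
  rintro v _ (rfl | rfl)
  · obtain ⟨k, hk⟩ := (g2 v).exists
    filter_upwards [eventually_gt_atTop k] with i hi
    filter_upwards [eventually_gt_atTop k] with j hj
    refine le_trans ?_ ((le_abs_self _).trans (fl _ (g1 k) _))
    simp only [map_add, map_smul, smul_eq_mul]
    linarith [e1 k i hi, e1 k j hj]
  · filter_upwards [g2 v] with i hi
    filter_upwards [eventually_gt_atTop i] with j hj
    refine le_trans ?_ ((le_abs_self _).trans (fl _ (g1 i) _))
    simp only [map_add, map_smul, smul_eq_mul]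
    linarith [e2 i, e1 i j hj]

end Pool.Agent.H.MP_ef1120_an
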