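import Pool.Agent.H.MP_ef1120_an.B

set_option autoImplicit false
open Set Filter Topology Cardinal

namespace Pool.Agent.H.MP_ef1120_an

universe u

variable {X : Type u} [NormedAddCommGroup X] [NormedSpace ℝ X]

lemma fd [FiniteDimensional ℝ X] : ∃ r < 2, 0 < r ∧ ∃ P : Set X,
    (∀ x ∈ P, ∀ y ∈ P, x ≠ y → 2 ≤ ‖x - y‖) ∧ ∀ x, ∃ p ∈ P, ‖x - p‖ ≤ r := by
  classical
  let b := Module.finBasis ℝ X
  let Λ := Submodule.span ℤ (range b)
  obtain ⟨ε, e0, hε⟩ : ∃ ε > 0, ∀ v ∈ Λ, v ≠ 0 → 2 * ε ≤ ‖v‖ := by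
    obtain ⟨ε, e0, h⟩ := Metric.isOpen_singleton_iff.1 (isOpen_discrete {(0 : Λ)})
    refine ⟨ε / 2, by positivity, fun v hv h0 => ?_⟩
    by_contra! hh
    exact h0 (congrArg Subtype.val (h ⟨v, hv⟩ (by simp [Subtype.dist_eq]; linarith)))
  have := FiniteDimensional.proper_real X
  obtain ⟨C, C1, C2⟩ := Metric.totallyBounded_iff.1
    ((ZSpan.fundamentalDomain_isBounded b).isCompact_closure.totallyBounded.subset subset_closure)
    (ε / 2) (by positivity)
  have C3 : ∀ x, ∃ c ∈ C, ‖ZSpan.fract b x - c‖ < ε / 2 := fun x => by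
    simpa [dist_eq_norm] using C2 (ZSpan.fract_mem_fundamentalDomain b x)
  choose c c1 c2 using C3
  let t := fun k : ℕ => ε * (1 + 1 / (k + 1))
  have t1 : ∀ k, ε < t k := fun k => lt_mul_of_one_lt_right e0 (by simp; positivity)
  have t2 : ∀ k, t k ≤ 2 * ε := fun k => by
    have : (1 : ℝ) / (k + 1) ≤ 1 := by rw [div_le_one (by positivity)]; simp
    simp only [t]; nlinarith
  have t3 : ∀ k, t (k + 1) < t k := fun k => by simp only [t]; gcongr; simp
  let Q := fun k n : ℕ => ∃ S : Finset X, S.card = n ∧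
    ∀ x ∈ S, ∀ y ∈ S, x ≠ y → ∀ v ∈ Λ, t k ≤ ‖x - y - v‖
  have Qb : ∀ k n, Q k n → n ≤ C1.toFinset.card := by
    rintro k _ ⟨S, rfl, h⟩
    refine Finset.card_le_card_of_injOn c (fun x _ => by simpa using c1 x) fun x hx y hy e => ?_
    by_contra hh
    have := h x hx y hy hh _ (Λ.sub_mem (ZSpan.floor b x).2 (ZSpan.floor b y).2)
    have a1 := c2 x
    have a2 := c2 y
    rw [ZSpan.fract_apply] at a1 a2
    have := norm_sub_le (x - ZSpan.floor b x - c x) (y - ZSpan.floor b y - c y)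
    rw [e, show x - ZSpan.floor b x - c y - (y - ZSpan.floor b y - c y) =
      x - y - (ZSpan.floor b x - ZSpan.floor b y) by abel] at this
    rw [e] at a1
    linarith [t1 k]
  let N := fun k => Nat.findGreatest (Q k) C1.toFinset.card
  obtain ⟨k, hk⟩ : ∃ k, N (k + 1) ≤ N k := by
    by_contra! h
    exact absurd ((strictMono_nat_of_lt_succ h).le_apply (x := C1.toFinset.card + 1))
      (not_le.2 (Nat.lt_succ_of_le (Nat.findGreatest_le _)))
  obtain ⟨S, s1, s2⟩ : Q k (N k) := Nat.findGreatest_spec (m := 0) (Nat.zero_le _) ⟨∅, by simp⟩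
  have tk : 0 < t k := e0.trans (t1 k)
  have key : ∀ x, ∃ s ∈ S, ∃ v ∈ Λ, ‖x - s - v‖ < t (k + 1) := fun x => by
    by_contra! h
    have hx : x ∉ S := fun hx => by
      have := h x hx 0 Λ.zero_mem
      simp at this
      linarith [t1 (k + 1)]
    have q : Q (k + 1) (N k + 1) := ⟨insert x S, by rw [Finset.card_insert_of_notMem hx, s1], by
      simp only [Finset.mem_insert]
      rintro y (rfl | hy) z (rfl | hz) e v hv
      · exact (e rfl).elim
      · exact h z hz v hv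
      · rw [← norm_neg, show -(y - z - v) = z - y - -v by abel]
        exact h y hy _ (Λ.neg_mem hv)
      · exact (t3 k).le.trans (s2 y hy z hz e v hv)⟩
    have := Nat.le_findGreatest (Qb _ _ q) q
    exact absurd (this.trans hk) (by simp)
  refine ⟨2 / t k * t (k + 1), ?_, mul_pos (by positivity) (e0.trans (t1 _)),
    {p | ∃ s ∈ S, ∃ v ∈ Λ, p = (2 / t k) • (s + v)}, ?_, fun x => ?_⟩
  · rw [div_mul_eq_mul_div, div_lt_iff₀ tk]; linarith [t3 k]
  · rintro _ ⟨s, hs, v, hv, rfl⟩ _ ⟨s', hs', v', hv', rfl⟩ e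
    rw [← smul_sub, norm_smul, Real.norm_of_nonneg (by positivity), div_mul_eq_mul_div, le_div_iff₀ tk,
      show s + v - (s' + v') = s - s' - (v' - v) by abel]
    gcongr
    by_cases h : s = s'
    · subst h
      rw [sub_self, zero_sub, norm_neg]
      exact (t2 k).trans (hε _ (Λ.sub_mem hv' hv) fun h => e (by rw [sub_eq_zero.1 h]))
    · exact s2 s hs s' hs' h _ (Λ.sub_mem hv' hv)
  · obtain ⟨s, hs, v, hv, h⟩ := key ((2 / t k)⁻¹ • x)
    refine ⟨_, ⟨s, hs, v, hv, rfl⟩, ?_⟩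
    rw [show x - (2 / t k) • (s + v) = (2 / t k) • ((2 / t k)⁻¹ • x - s - v) by
      rw [sub_sub, smul_sub, smul_inv_smul₀ (by positivity)], norm_smul,
      Real.norm_of_nonneg (by positivity)]
    gcongr

lemma sep [TopologicalSpace.SeparableSpace X] : ∃ r < 2, 0 < r ∧ ∃ P : Set X,
    (∀ x ∈ P, ∀ y ∈ P, x ≠ y → 2 ≤ ‖x - y‖) ∧ ∀ x, ∃ p ∈ P, ‖x - p‖ ≤ r := by
  by_cases h : FiniteDimensional ℝ X
  · exact fd
  obtain ⟨l, hl, α, β, a0, ab, g⟩ : ∃ l : Filter X, l.NeBot ∧ ∃ α β, 0 < α ∧ α < β ∧ Gain l α β := by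
    by_contra! H
    obtain ⟨a, h1, h2⟩ := semi h fun y α β => H y y.neBot α β
    obtain ⟨l, hl, α, β, a0, ab, g⟩ := c0 h1 h2
    exact H l hl α β a0 ab g
  obtain ⟨D, D1, D2⟩ := TopologicalSpace.exists_countable_dense X
  exact greedy le_rfl (le_aleph0_iff_set_countable.2 D1) D2 (fun ι S h1 h2 => by
    have := lt_aleph0_iff_finite.1 h1
    simpa using Filter.nonempty_of_mem (iInter_mem.2 h2)) a0 ab g.1 g.2

end Pool.Agent.H.MP_ef1120_an
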